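import Pool.Agent.Helper24.UX.Dx2
import Pool.Agent.Helper57.TX.Final

/-! # NS: the number of zeros in a thick set, from below -/

set_option autoImplicit false
open MeasureTheory Set Filter Topology
open Pool.Agent.Helper93.UG (zc sp)
open Pool.Agent.Helper57.Zeta Pool.Agent.Helper57.PC
open Pool.Agent.Helper56.UG (fin_of zc_eq zc_mono)

namespace Pool.Agent.Helper44.NS

/-- a zero is seen by the windows which start in an interval of the length of the window -/
theorem int_le {T w : ℝ} (hw : 0 ≤ w) {E G : Set ℝ} (hE : MeasurableSet E) (hT : E ⊆ Icc T (2 * T))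
    (hG : G ⊆ Icc T (2 * T)) (hEG : ∀ t ∈ E, Ico t (t + w) ⊆ G) :
    ∫ t in E, (zc (Ico t (t + w)) : ℝ) ≤ w * (zc G : ℝ) := by
  classical
  set F : Finset ℂ := (fin_of hG).toFinset with hF
  have hFm : ∀ ρ : ℂ, ρ ∈ F ↔ IsNontrivialZero ρ ∧ ρ.im ∈ G := by
    intro ρ
    rw [hF, Set.Finite.mem_toFinset]
    rfl
  have h1 : ∀ t ∈ E, (zc (Ico t (t + w)) : ℝ) = ∑ ρ ∈ F, (mult ρ : ℝ) * (Ioc (ρ.im - w) ρ.im).indicator 1 t := by
    intro t ht
    have hs : Ico t (t + w) ⊆ Icc T (2 * T) := (hEG t ht).trans hG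
    rw [zc_eq hs, Nat.cast_sum]
    have h2 : (fin_of hs).toFinset = F.filter fun ρ => ρ.im ∈ Ico t (t + w) := by
      ext ρ
      rw [Set.Finite.mem_toFinset, Finset.mem_filter, hFm]
      constructor
      · rintro ⟨h3, h4⟩
        exact ⟨⟨h3, hEG t ht h4⟩, h4⟩
      · rintro ⟨⟨h3, _⟩, h4⟩
        exact ⟨h3, h4⟩
    rw [h2, Finset.sum_filter]
    refine Finset.sum_congr rfl fun ρ _ => ?_
    by_cases h3 : ρ.im ∈ Ico t (t + w)
    · rw [if_pos h3, indicator_of_mem (show t ∈ Ioc (ρ.im - w) ρ.im from ⟨by linarith [h3.2], h3.1⟩)]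
      simp
    · rw [if_neg h3, indicator_of_notMem (show t ∉ Ioc (ρ.im - w) ρ.im from fun h4 => h3 ⟨h4.2, by linarith [h4.1]⟩)]
      simp
  have hvE : volume E ≠ ⊤ := ne_top_of_le_ne_top (by rw [Real.volume_Icc]; exact ENNReal.ofReal_ne_top) (measure_mono hT)
  have hii : ∀ ρ : ℂ, IntegrableOn (fun t : ℝ => (mult ρ : ℝ) * (Ioc (ρ.im - w) ρ.im).indicator 1 t) E := by
    intro ρ
    refine Integrable.const_mul ?_ _
    exact (integrableOn_const (C := (1:ℝ)) hvE).indicator measurableSet_Ioc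
  rw [setIntegral_congr_fun hE h1, integral_finsetSum _ fun ρ _ => hii ρ, zc_eq hG, Nat.cast_sum, Finset.mul_sum]
  refine Finset.sum_le_sum fun ρ _ => ?_
  rw [integral_const_mul, mul_comm w]
  refine mul_le_mul_of_nonneg_left ?_ (Nat.cast_nonneg _)
  rw [integral_indicator_one measurableSet_Ioc]
  have h5 : (volume.restrict E).real (Ioc (ρ.im - w) ρ.im) ≤ volume.real (Ioc (ρ.im - w) ρ.im) :=
    ENNReal.toReal_mono (by rw [Real.volume_Ioc]; exact ENNReal.ofReal_ne_top) (Measure.restrict_apply_le _ _)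
  refine h5.trans ?_
  rw [Real.volume_real_Ioc_of_le (by linarith)]
  linarith

/-- the windows which start in a set, from a moment -/
theorem int_ge {T w c M : ℝ} {q : ℕ} (hq : 1 ≤ q) (hc : 0 < c) {E : Set ℝ} (hT : E ⊆ Icc (T / 2) (3 * T))
    (hi : IntegrableOn (fun t => |(zc (Ico t (t + w)) : ℝ) - c| ^ (2 * q)) (Icc (T / 2) (3 * T)))
    (hM : ∫ t in Icc (T / 2) (3 * T), |(zc (Ico t (t + w)) : ℝ) - c| ^ (2 * q) ≤ M) :
    3 / 4 * c * volume.real E - (4 / c) ^ (2 * q - 1) * M ≤ ∫ t in E, (zc (Ico t (t + w)) : ℝ) := by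
  have hvE : volume E ≠ ⊤ := ne_top_of_le_ne_top (by rw [Real.volume_Icc]; exact ENNReal.ofReal_ne_top) (measure_mono hT)
  have hmeas := Pool.Agent.Helper24.UX.zc_meas' w
  have hpt : ∀ t : ℝ, 3 / 4 * c - (4 / c) ^ (2 * q - 1) * |(zc (Ico t (t + w)) : ℝ) - c| ^ (2 * q) ≤ (zc (Ico t (t + w)) : ℝ) := by
    intro t
    generalize (zc (Ico t (t + w)) : ℝ) = z
    have h0 : 0 ≤ (4 / c) ^ (2 * q - 1) * |z - c| ^ (2 * q) := by positivity
    rcases le_or_gt |z - c| (c / 4) with h | h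
    · have := (abs_le.1 h).1
      linarith
    · have h1 : |z - c| ≤ (4 / c) ^ (2 * q - 1) * |z - c| ^ (2 * q) := by
        have h2 : 1 ≤ 4 / c * |z - c| := by
          rw [div_mul_eq_mul_div, le_div_iff₀ hc]
          linarith
        have h3 : |z - c| ^ (2 * q) = |z - c| ^ (2 * q - 1) * |z - c| := by
          rw [← pow_succ]
          congr 1
          omega
        rw [h3, ← mul_assoc, ← mul_pow]
        exact le_mul_of_one_le_left (abs_nonneg _) (one_le_pow₀ h2)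
      have h4 := neg_abs_le (z - c)
      linarith
  have hzi : IntegrableOn (fun t => (zc (Ico t (t + w)) : ℝ)) E := by
    have hg : IntegrableOn (fun t => |(zc (Ico t (t + w)) : ℝ) - c| ^ (2 * q) + (c + 1)) E :=
      (hi.mono_set hT).add (integrableOn_const hvE)
    refine hg.mono' hmeas.aestronglyMeasurable (ae_of_all _ fun t => ?_)
    rw [Real.norm_eq_abs, abs_of_nonneg (Nat.cast_nonneg _)]
    generalize (zc (Ico t (t + w)) : ℝ) = z
    have h1 : |z - c| ≤ |z - c| ^ (2 * q) + 1 := by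
      rcases le_or_gt |z - c| 1 with h | h
      · have : 0 ≤ |z - c| ^ (2 * q) := by positivity
        linarith
      · have := le_self_pow₀ h.le (show 2 * q ≠ 0 by omega)
        linarith
    have h2 := le_abs_self (z - c)
    linarith
  have hfi : IntegrableOn (fun t => 3 / 4 * c - (4 / c) ^ (2 * q - 1) * |(zc (Ico t (t + w)) : ℝ) - c| ^ (2 * q)) E :=
    (integrableOn_const hvE).sub ((hi.mono_set hT).const_mul _)
  have h5 := setIntegral_mono (μ := volume) (s := E) hfi hzi hpt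
  refine le_trans ?_ h5
  have hk1 : IntegrableOn (fun _ : ℝ => 3 / 4 * c) E := integrableOn_const hvE
  have hk2 : IntegrableOn (fun t => (4 / c) ^ (2 * q - 1) * |(zc (Ico t (t + w)) : ℝ) - c| ^ (2 * q)) E :=
    (hi.mono_set hT).const_mul _
  rw [integral_sub hk1 hk2, setIntegral_const, integral_const_mul, smul_eq_mul]
  have h6 : ∫ t in E, |(zc (Ico t (t + w)) : ℝ) - c| ^ (2 * q) ≤ M :=
    (setIntegral_mono_set hi (ae_of_all _ fun t => by positivity) hT.eventuallyLE).trans hM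
  have h7 : (4 / c) ^ (2 * q - 1) * ∫ t in E, |(zc (Ico t (t + w)) : ℝ) - c| ^ (2 * q) ≤ (4 / c) ^ (2 * q - 1) * M :=
    mul_le_mul_of_nonneg_left h6 (by positivity)
  linarith

/-- the error term -/
theorem err_le {a B C₁ L c v T : ℝ} {q : ℕ} (hq1 : 1 ≤ q) (hq2 : B + 1 ≤ a * q) (hB : 0 ≤ B) (hC₁ : 0 < C₁) (hL1 : 1 ≤ L)
    (h11 : C₁ * 4 ^ (3 * q) * 2 ≤ L) (hc : c = L ^ a / 2) (hc2 : 2 ≤ c) (hv : L ^ (-B) ≤ v) (hv0 : 0 < v) (hT0 : 0 < T) :
    (4 / c) ^ (2 * q - 1) * (C₁ * Real.log (2 + c) ^ q * T) ≤ 3 / 16 * (c * (v * T)) := by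
  have hL0 : 0 < L := by linarith
  have h1 : Real.log (2 + c) ≤ 2 * c := by
    have := Real.log_le_sub_one_of_pos (show 0 < 2 + c by linarith)
    linarith
  have h0 : 0 ≤ Real.log (2 + c) := Real.log_nonneg (by linarith)
  have h2 : Real.log (2 + c) ^ q ≤ 2 ^ q * c ^ q := by
    rw [← mul_pow]
    exact pow_le_pow_left₀ h0 h1 q
  have h3 : L * L ^ B ≤ L ^ (a * q) := by
    rw [← Real.rpow_one_add' hL0.le (by linarith)]
    exact Real.rpow_le_rpow_of_exponent_le hL1 (by linarith)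
  have h4 : c ^ q * 2 ^ q = L ^ (a * q) := by
    rw [← mul_pow, hc, div_mul_cancel₀ _ (by norm_num : (2:ℝ) ≠ 0), ← Real.rpow_natCast, ← Real.rpow_mul hL0.le]
  have h5 : L ^ B * v ≥ 1 := by
    have h6 : L ^ B * L ^ (-B) = 1 := by rw [← Real.rpow_add hL0]; simp
    nlinarith [mul_le_mul_of_nonneg_left hv (Real.rpow_nonneg hL0.le B)]
  have h7 : (4 / c) ^ (2 * q - 1) = 4 ^ (2 * q - 1) * c / c ^ (2 * q) := by
    have h8 : c ^ (2 * q) = c ^ (2 * q - 1) * c := by
      rw [← pow_succ]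
      congr 1
      omega
    have hcp : 0 < c := by linarith
    rw [h8, div_pow]
    field_simp
  have h9 : (4:ℝ) ^ (2 * q - 1) * 4 = 4 ^ (2 * q) := by
    rw [← pow_succ]
    congr 1
    omega
  have hcq : 0 < c ^ q := by positivity
  have h10 : c ^ (2 * q) = c ^ q * c ^ q := by rw [two_mul, pow_add]
  -- `C₁ 4 ^ (2 q - 1) 2 ^ q ≤ 3 / 16 c ^ q v`
  have h12 : C₁ * 4 ^ (2 * q - 1) * 2 ^ q ≤ 3 / 16 * (c ^ q * v) := by
    have e1 : (4:ℝ) ^ (3 * q) = 4 ^ (2 * q) * (2 ^ q * 2 ^ q) := by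
      rw [← mul_pow, show (2:ℝ) * 2 = 4 by norm_num, ← pow_add]
      congr 1
      ring
    have e2 : C₁ * 4 ^ (2 * q) * (2 ^ q * 2 ^ q) * 2 ≤ L := by rw [e1] at h11; linarith
    have e3 : C₁ * 4 ^ (2 * q) * (2 ^ q * 2 ^ q) * 2 ≤ c ^ q * 2 ^ q * v := by
      calc C₁ * 4 ^ (2 * q) * (2 ^ q * 2 ^ q) * 2 ≤ L * 1 := by rw [mul_one]; exact e2
        _ ≤ L * (L ^ B * v) := mul_le_mul_of_nonneg_left h5 hL0.le
        _ = (L * L ^ B) * v := by ring
        _ ≤ L ^ (a * q) * v := mul_le_mul_of_nonneg_right h3 hv0.le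
        _ = c ^ q * 2 ^ q * v := by rw [h4]
    have e4 : (0:ℝ) < 2 ^ q := by positivity
    have e5 : C₁ * 4 ^ (2 * q) * 2 ^ q * 2 ≤ c ^ q * v := by
      have : (C₁ * 4 ^ (2 * q) * 2 ^ q * 2) * 2 ^ q ≤ (c ^ q * v) * 2 ^ q := by linarith
      exact le_of_mul_le_mul_right this e4
    have e6 : C₁ * 4 ^ (2 * q - 1) * 2 ^ q = C₁ * 4 ^ (2 * q) * 2 ^ q * 2 / 8 := by
      rw [← h9]; ring
    rw [e6]
    linarith [mul_nonneg hcq.le hv0.le]
  calc (4 / c) ^ (2 * q - 1) * (C₁ * Real.log (2 + c) ^ q * T)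
      ≤ (4 / c) ^ (2 * q - 1) * (C₁ * (2 ^ q * c ^ q) * T) := by gcongr
    _ = c * T * (C₁ * 4 ^ (2 * q - 1) * 2 ^ q) / c ^ q := by
        rw [h7, h10]
        field_simp
    _ ≤ c * T * (3 / 16 * (c ^ q * v)) / c ^ q := by gcongr
    _ = 3 / 16 * (c * (v * T)) := by
        field_simp

/-- **zeros in a thick set**: if `G` contains the neighbourhoods of length `L ^ a` mean spacings of the points of `E` (in
`[T, 2 T]`) and `E` has measure at least `v T`, `v ≥ L ^ (-B)`, then `G` contains at least `v / 20 * T log T` zeros -/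
theorem thick_zeros {a B : ℝ} (ha : 0 < a) (ha1 : a < 1) (hB : 0 ≤ B) : ∃ C T₀ : ℝ, 1 ≤ C ∧ ∀ T L : ℝ, T₀ ≤ T → C ≤ L →
    L ≤ Real.log T → ∀ E G : Set ℝ, E ⊆ Icc T (2 * T) →
    (∀ t ∈ E, ∀ u : ℝ, |u - t| ≤ L ^ a * sp T → T ≤ u → u ≤ 2 * T → u ∈ G) → ∀ v : ℝ, L ^ (-B) ≤ v →
    ENNReal.ofReal (v * T) ≤ volume E →
    v / 20 * (T * Real.log T) ≤ (zc {g : ℝ | T ≤ g ∧ g ≤ 2 * T ∧ g ∈ G} : ℝ) := by
  -- the moment
  obtain ⟨q, hq⟩ := exists_nat_ge (max 1 ((B + 1) / a))
  have hq1 : 1 ≤ q := by exact_mod_cast (le_max_left _ _).trans hq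
  have hq2 : B + 1 ≤ a * q := by
    have := (le_max_right _ _).trans hq
    rw [div_le_iff₀ ha] at this
    linarith
  obtain ⟨C₁, d, T₁, hC₁, hd, hX⟩ := Pool.Agent.Helper57.TX.tx1 q
  -- thresholds
  have hlim1 : Tendsto (fun x : ℝ => x ^ (1 - a) / Real.log x) atTop atTop := by
    have h1 : Tendsto (fun x : ℝ => Real.log x / x ^ (1 - a)) atTop (𝓝[>] 0) := by
      refine tendsto_nhdsWithin_iff.2 ⟨(isLittleO_log_rpow_atTop (by linarith)).tendsto_div_nhds_zero, ?_⟩
      filter_upwards [eventually_gt_atTop 1] with x hx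
      exact div_pos (Real.log_pos hx) (Real.rpow_pos_of_pos (by linarith) _)
    refine h1.inv_tendsto_nhdsGT_zero.congr fun x => ?_
    rw [Pi.inv_apply, inv_div]
  have hlim2 : Tendsto (fun x : ℝ => x / Real.log x ^ B) atTop atTop := by
    have h1 : Tendsto (fun x : ℝ => Real.log x ^ B / x) atTop (𝓝[>] 0) := by
      refine tendsto_nhdsWithin_iff.2 ⟨?_, ?_⟩
      · have := (isLittleO_log_rpow_rpow_atTop B (show (0:ℝ) < 1 by norm_num)).tendsto_div_nhds_zero
        refine this.congr fun x => ?_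
        rw [Real.rpow_one]
      filter_upwards [eventually_gt_atTop 1] with x hx
      exact div_pos (Real.rpow_pos_of_pos (Real.log_pos hx) _) (by linarith)
    refine h1.inv_tendsto_nhdsGT_zero.congr fun x => ?_
    rw [Pi.inv_apply, inv_div]
  obtain ⟨T₂, hT₂⟩ := eventually_atTop.1 ((hlim1.comp Real.tendsto_log_atTop).eventually_ge_atTop (1 / d))
  obtain ⟨T₃, hT₃⟩ := eventually_atTop.1 (hlim2.eventually_ge_atTop 16)
  refine ⟨C₁ * 4 ^ (3 * q) * 2 + 4 ^ (1 / a), max (max T₁ T₂) (max T₃ 3), ?_, ?_⟩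
  · have h1 : (1:ℝ) ≤ 4 ^ (1 / a) := Real.one_le_rpow (by norm_num) (by positivity)
    have h2 : 0 < C₁ * 4 ^ (3 * q) * 2 := by positivity
    linarith
  intro T L hT hCL hLT E G hET hEG v hv hvol
  simp only [max_le_iff] at hT
  obtain ⟨⟨hTa, hTb⟩, hTc, hTd⟩ := hT
  have hT0 : 0 < T := by linarith
  have h4a : (4:ℝ) ^ (1 / a) ≤ L := by
    have h2 : 0 < C₁ * 4 ^ (3 * q) * 2 := by positivity
    linarith
  have hL1 : 1 ≤ L := le_trans (Real.one_le_rpow (by norm_num) (by positivity)) h4a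
  have hL0 : 0 < L := by linarith
  have hlT : 1 ≤ Real.log T := hL1.trans hLT
  have hLa4 : 4 ≤ L ^ a := by
    have h1 := Real.rpow_le_rpow (by positivity) h4a ha.le
    rwa [← Real.rpow_mul (by norm_num), one_div, inv_mul_cancel₀ ha.ne', Real.rpow_one] at h1
  have hLaL : L ^ a ≤ L := by
    calc L ^ a ≤ L ^ (1:ℝ) := Real.rpow_le_rpow_of_exponent_le hL1 ha1.le
      _ = L := Real.rpow_one L
  have hs : 0 < sp T := by
    unfold sp
    have := Real.pi_pos
    positivity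
  set c := L ^ a / 2 with hc
  set w := c * sp T with hw
  have hc2 : 2 ≤ c := by rw [hc]; linarith
  have hw0 : 0 ≤ w := by positivity
  have hw4 : w ≤ 4 := by
    have h1 : w ≤ L / 2 * (2 * Real.pi / Real.log T) := by
      rw [hw, hc]
      unfold sp
      gcongr
    have h2 : L / 2 * (2 * Real.pi / Real.log T) = Real.pi * (L / Real.log T) := by ring
    have h3 : L / Real.log T ≤ 1 := by rw [div_le_one (by linarith)]; exact hLT
    have h4 := Real.pi_lt_four
    have h5 := Real.pi_pos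
    nlinarith
  have hv0 : 0 < v := lt_of_lt_of_le (Real.rpow_pos_of_pos hL0 _) hv
  -- `4 w ≤ v T`
  have hwv : 4 * w ≤ v * T := by
    have h1 := hT₃ T hTc
    have h2 : (Real.log T) ^ (-B) ≤ v := le_trans (Real.rpow_le_rpow_of_nonpos hL0 hLT (by linarith)) hv
    have h3 : T / Real.log T ^ B = (Real.log T) ^ (-B) * T := by
      rw [Real.rpow_neg (by linarith)]
      field_simp
    have h4 : (Real.log T) ^ (-B) * T ≤ v * T := mul_le_mul_of_nonneg_right h2 hT0.le
    linarith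
  -- the open set
  set U : Set ℝ := Metric.thickening w E ∩ Icc T (2 * T - w) with hU
  have hUm : MeasurableSet U := Metric.isOpen_thickening.measurableSet.inter measurableSet_Icc
  set G' : Set ℝ := {g : ℝ | T ≤ g ∧ g ≤ 2 * T ∧ g ∈ G} with hG'
  have hG'T : G' ⊆ Icc T (2 * T) := fun g hg => ⟨hg.1, hg.2.1⟩
  have hUT : U ⊆ Icc T (2 * T) := fun u hu => ⟨hu.2.1, by linarith [hu.2.2]⟩
  have hUG : ∀ u ∈ U, Ico u (u + w) ⊆ G' := by
    intro u hu g hg
    obtain ⟨t, ht, htu⟩ := Metric.mem_thickening_iff.1 hu.1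
    refine ⟨hu.2.1.trans hg.1, by linarith [hg.2, hu.2.2], hEG t ht g ?_ (hu.2.1.trans hg.1) (by linarith [hg.2, hu.2.2])⟩
    have h1 : |u - t| < w := by rwa [Real.dist_eq] at htu
    have h2 := abs_lt.1 h1
    have h3 : L ^ a * sp T = 2 * w := by rw [hw, hc]; ring
    rw [h3]
    exact abs_le.2 ⟨by linarith [hg.1, h2.1], by linarith [hg.2, h2.2]⟩
  have hUv : 3 / 4 * (v * T) ≤ volume.real U := by
    have h1 : E ⊆ U ∪ Icc (2 * T - w) (2 * T) := by
      intro t ht
      rcases le_or_gt t (2 * T - w) with h | h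
      · left
        refine ⟨?_, (hET ht).1, h⟩
        rcases hw0.eq_or_lt with h0 | h0
        · exfalso
          have : 0 < w := by positivity
          linarith
        · exact Metric.self_subset_thickening h0 E ht
      · right
        exact ⟨h.le, (hET ht).2⟩
    have hUf : volume U ≠ ⊤ := ne_top_of_le_ne_top (by rw [Real.volume_Icc]; exact ENNReal.ofReal_ne_top) (measure_mono hUT)
    have h2 : ENNReal.ofReal (v * T) ≤ ENNReal.ofReal (volume.real U + w) := by
      refine hvol.trans ((measure_mono h1).trans ((measure_union_le _ _).trans ?_))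
      rw [ENNReal.ofReal_add measureReal_nonneg hw0, ofReal_measureReal hUf, Real.volume_Icc]
      gcongr
      linarith
    have h3 := (ENNReal.ofReal_le_ofReal_iff (by positivity)).1 h2
    linarith
  -- the moment bound
  have hcT : c ≤ d * (Real.log T / Real.log (Real.log T)) := by
    have h1 := hT₂ T hTb
    simp only [Function.comp_apply] at h1
    have h2 : 1 ≤ d * (Real.log T ^ (1 - a) / Real.log (Real.log T)) := by
      rw [div_le_iff₀ hd] at h1
      linarith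
    have h3 : L ^ a ≤ Real.log T ^ a := Real.rpow_le_rpow hL0.le hLT ha.le
    have h4 : Real.log T ^ a * Real.log T ^ (1 - a) = Real.log T := by
      rw [← Real.rpow_add (by linarith)]
      simp
    calc c ≤ L ^ a := by rw [hc]; linarith
      _ ≤ Real.log T ^ a * 1 := by rw [mul_one]; exact h3
      _ ≤ Real.log T ^ a * (d * (Real.log T ^ (1 - a) / Real.log (Real.log T))) :=
          mul_le_mul_of_nonneg_left h2 (by positivity)
      _ = d * (Real.log T ^ a * Real.log T ^ (1 - a) / Real.log (Real.log T)) := by ring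
      _ = _ := by rw [h4]
  obtain ⟨hi, hI⟩ := hX T hTa c (by linarith) hcT
  have hsub : U ⊆ Icc (T / 2) (3 * T) := fun u hu => ⟨by linarith [hu.2.1], by linarith [hu.2.2]⟩
  have hge := int_ge hq1 (by linarith : 0 < c) hsub hi hI
  have hle := int_le hw0 hUm hUT hG'T hUG
  have herr : (4 / c) ^ (2 * q - 1) * (C₁ * Real.log (2 + c) ^ q * T) ≤ 3 / 16 * (c * (v * T)) := by
    have h11 : C₁ * 4 ^ (3 * q) * 2 ≤ L := by
      have : (0:ℝ) < 4 ^ (1 / a) := by positivity
      linarith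
    exact err_le hq1 hq2 hB hC₁ hL1 h11 hc hc2 hv hv0 hT0
  have hmain : 3 / 8 * (c * (v * T)) ≤ w * (zc G' : ℝ) := by
    have h1 : 3 / 4 * c * (3 / 4 * (v * T)) ≤ 3 / 4 * c * volume.real U := mul_le_mul_of_nonneg_left hUv (by positivity)
    nlinarith
  have hzs : 3 / 8 * (v * T) ≤ sp T * (zc G' : ℝ) := by
    have h1 : c * (3 / 8 * (v * T)) ≤ c * (sp T * (zc G' : ℝ)) := by
      calc c * (3 / 8 * (v * T)) = 3 / 8 * (c * (v * T)) := by ring
        _ ≤ w * (zc G' : ℝ) := hmain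
        _ = c * (sp T * (zc G' : ℝ)) := by rw [hw]; ring
    exact le_of_mul_le_mul_left h1 (by linarith)
  have hsl : sp T * Real.log T = 2 * Real.pi := by
    unfold sp
    field_simp
  have hpi : Real.pi < 3.15 := Real.pi_lt_d2
  have h20 : 3 / 8 * (v * T) * Real.log T ≤ 2 * Real.pi * (zc G' : ℝ) := by
    calc 3 / 8 * (v * T) * Real.log T ≤ sp T * (zc G' : ℝ) * Real.log T := mul_le_mul_of_nonneg_right hzs (by linarith)
      _ = (sp T * Real.log T) * (zc G' : ℝ) := by ring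
      _ = 2 * Real.pi * (zc G' : ℝ) := by rw [hsl]
  have hz0 : (0:ℝ) ≤ (zc G' : ℝ) := Nat.cast_nonneg _
  have hvT : 0 ≤ v * T * Real.log T := by positivity
  nlinarith

end Pool.Agent.Helper44.NS
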