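import Pool.Agent.Helper57.NS.Defs
import Pool.Agent.Helper44.NS.ZLow

/-! # NS: the ordinates of zeros at which the prediction fails, from below -/

set_option autoImplicit false
open MeasureTheory Set Filter Topology
open Pool.Agent.Helper57.Zeta Pool.Agent.Helper57.LH Pool.Agent.Helper57.ED
open Pool.Agent.Helper54.LG (za zb qk SS MM)
open Pool.Agent.Helper93.UG (zc sp)
open Pool.Agent.Helper69.UG (XX NX)
open Pool.Agent.Helper57.TX (QX DP rs)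
open Pool.Agent.Helper57.NS

namespace Pool.Agent.Helper44.NS

/-- the chain: a function which is near to `D t` at all points near `t` -/
theorem chain {D S : ℝ → ℝ} {s δ : ℝ} (hs : 0 < s) {J : ℕ} {t : ℝ}
    (h : ∀ j : ℤ, |j| ≤ J → ∀ u : ℝ, |u - (t + j * s)| ≤ s → |S u - D (t + j * s)| ≤ δ) :
    ∀ j : ℤ, |j| ≤ J → |D (t + j * s) - D t| ≤ 2 * J * δ := by
  have hδ : 0 ≤ δ := by
    have := h 0 (by simp) (t + ((0:ℤ):ℝ) * s) (by simp; exact hs.le)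
    exact (abs_nonneg _).trans this
  have hstep : ∀ j j' : ℤ, |j| ≤ J → |j'| ≤ J → |j - j'| = 1 → |D (t + j * s) - D (t + j' * s)| ≤ 2 * δ := by
    intro j j' hj hj' hjj
    have h1 := h j hj (t + j * s) (by simp; exact hs.le)
    have h2 := h j' hj' (t + j * s) (by
      have e : t + (j:ℝ) * s - (t + (j':ℝ) * s) = ((j - j' : ℤ) : ℝ) * s := by push_cast; ring
      rw [e, abs_mul, abs_of_pos hs, ← Int.cast_abs, hjj]
      simp)
    rw [abs_sub_comm] at h1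
    calc |D (t + j * s) - D (t + j' * s)| = |(D (t + j * s) - S (t + j * s)) + (S (t + j * s) - D (t + j' * s))| := by
          congr 1; ring
      _ ≤ δ + δ := (abs_add_le _ _).trans (add_le_add h1 h2)
      _ = 2 * δ := by ring
  have hpos : ∀ n : ℕ, n ≤ J → |D (t + ((n : ℤ) : ℝ) * s) - D t| ≤ 2 * n * δ ∧
      |D (t + ((-(n : ℤ) : ℤ) : ℝ) * s) - D t| ≤ 2 * n * δ := by
    intro n
    induction n with
    | zero => intro _; simp
    | succ n ih =>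
      intro hn
      obtain ⟨ih1, ih2⟩ := ih (by omega)
      have a1 := hstep ((n + 1 : ℕ) : ℤ) (n : ℤ) (by push_cast; rw [abs_of_nonneg (by positivity)]; exact_mod_cast hn)
        (by rw [abs_of_nonneg (by positivity)]; omega) (by push_cast; simp)
      have a2 := hstep (-((n + 1 : ℕ) : ℤ)) (-(n : ℤ)) (by rw [abs_neg, abs_of_nonneg (by positivity)]; exact_mod_cast hn)
        (by rw [abs_neg, abs_of_nonneg (by positivity)]; omega) (by push_cast; simp)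
      constructor
      · calc _ = |(D (t + (((n + 1 : ℕ) : ℤ) : ℝ) * s) - D (t + ((n : ℤ) : ℝ) * s)) + (D (t + ((n : ℤ) : ℝ) * s) - D t)| := by
              congr 1; ring
          _ ≤ 2 * δ + 2 * n * δ := (abs_add_le _ _).trans (add_le_add a1 ih1)
          _ = _ := by push_cast; ring
      · calc _ = |(D (t + ((-((n + 1 : ℕ) : ℤ) : ℤ) : ℝ) * s) - D (t + ((-(n : ℤ) : ℤ) : ℝ) * s)) +
                (D (t + ((-(n : ℤ) : ℤ) : ℝ) * s) - D t)| := by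
              congr 1; ring
          _ ≤ 2 * δ + 2 * n * δ := (abs_add_le _ _).trans (add_le_add a2 ih2)
          _ = _ := by push_cast; ring
  intro j hj
  obtain ⟨hj1, hj2⟩ := abs_le.1 hj
  obtain ⟨h1, h2⟩ := hpos j.natAbs (by omega)
  have h3 : 2 * (j.natAbs : ℝ) * δ ≤ 2 * J * δ := by
    have : (j.natAbs : ℝ) ≤ J := by exact_mod_cast (show j.natAbs ≤ J by omega)
    gcongr
  rcases Int.natAbs_eq j with h4 | h4
  · rw [← h4] at h1
    exact h1.trans h3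
  · rw [← h4] at h2
    exact h2.trans h3

/-- `L ^ (-A x)` for `x = e + d`, `d` a negative power of `L` -/
theorem pow_low {A e δ K c L : ℝ} (hA0 : 0 ≤ A) (hA : A ≤ 3) (he : e ≤ 1) (hK : 0 ≤ K) (hc : 0 < c) (hL : 1 ≤ L)
    (hδ : δ = K * L ^ (-c)) (hδ1 : δ ≤ 1) :
    Real.exp (-(9 * K / c)) * L ^ (-(A * e ^ 2)) ≤ L ^ (-(A * (e + δ) ^ 2)) := by
  have hL0 : 0 < L := by linarith
  have hδ0 : 0 ≤ δ := by rw [hδ]; positivity
  have h1 : A * (e + δ) ^ 2 ≤ A * e ^ 2 + 9 * δ := by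
    have : (e + δ) ^ 2 ≤ e ^ 2 + 3 * δ := by nlinarith
    nlinarith
  have h2 : Real.log L ≤ L ^ c / c := Real.log_le_rpow_div hL0.le hc
  have h3 : 0 ≤ Real.log L := Real.log_nonneg hL
  have h4 : 9 * δ * Real.log L ≤ 9 * K / c := by
    calc 9 * δ * Real.log L ≤ 9 * δ * (L ^ c / c) := by gcongr
      _ = 9 * K / c * (L ^ (-c) * L ^ c) := by rw [hδ]; ring
      _ = 9 * K / c := by rw [← Real.rpow_add hL0]; simp
  rw [Real.rpow_def_of_pos hL0, Real.rpow_def_of_pos hL0, ← Real.exp_add, Real.exp_le_exp]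
  nlinarith

/-- stub sl_dp -/
def SlDp (k : ℝ) : Prop := ∃ c C T₀ : ℝ, 0 < c ∧ 1 ≤ C ∧ ∀ T L : ℝ, T₀ ≤ T → C ≤ L →
    L ≤ Real.log T → ∃ E : Set ℝ, volume E ≤ ENNReal.ofReal (C * L ^ (-4 : ℝ) * T) ∧
    ∀ t ∈ Icc (T / 2) (3 * T), t ∉ E → ∀ u : ℝ, |u - t| ≤ sp T →
      |Sk k T L u - (DP (QX (Xk k T L)) (rk k T L) t).re| ≤ C * L ^ (-c)

/-- stub prime_low -/
def PrimeLow (k : ℝ) : Prop := ∃ C T₀ : ℝ, 1 ≤ C ∧ ∀ T L e : ℝ, T₀ ≤ T → C ≤ L → L ≤ Real.log T →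
    0 < e → e ≤ 2 → ENNReal.ofReal (1 / C * L ^ (-((1 + 30 * k) * e ^ 2)) * T) ≤
      volume {t : ℝ | T ≤ t ∧ t ≤ 2 * T ∧ e < |(DP (QX (Xk k T L)) (rk k T L) t).re|}

/-- stub tot_thick -/
def TotThick (k : ℝ) : Prop := ∃ c C T₀ : ℝ, 0 < c ∧ 1 ≤ C ∧ ∀ T L : ℝ, T₀ ≤ T → C ≤ L →
    L ≤ Real.log T → Thick T (C * L ^ (-4 : ℝ)) (C * L ^ (-c)) (fun u => Tk k T L u - (Mk k L - Sk k T L u))

/-- stub out_thick -/
def OutThick (k : ℝ) : Prop := ∃ c C T₀ : ℝ, 0 < c ∧ 1 ≤ C ∧ ∀ T L : ℝ, T₀ ≤ T → C ≤ L →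
    L ≤ Real.log T → Thick T (C * L ^ (-4 : ℝ)) (C * L ^ (-c)) (fun u => Ok k T L u - (Mk k L - Ak k L))

/-- stub win_count -/
def WinCount (k : ℝ) : Prop := ∃ C T₀ : ℝ, 1 ≤ C ∧ ∀ T L : ℝ, T₀ ≤ T → C ≤ L → L ≤ Real.log T →
    volume {t : ℝ | t ∈ Icc (T / 2) (3 * T) ∧ L ^ (k / 4) < (zc (Wk k T L 2 t) : ℝ)} ≤ ENNReal.ofReal (C * L ^ (-4 : ℝ) * T)

/-- stub bad_of -/
def BadOf (k : ℝ) : Prop := ∃ c C : ℝ, 0 < c ∧ 1 ≤ C ∧ ∀ (T L e t v : ℝ) (W : Set ℝ), 3 ≤ T →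
    C ≤ L → |Ok k T L t - (Mk k L - Ak k L)| ≤ v → (zc (Wk k T L 1 t) : ℝ) ≤ L ^ (k / 4) →
    W ⊆ Icc (-L ^ (k / 8)) (L ^ (k / 8)) → e + v + C * L ^ (-c) < |Tk k T L t - Mk k L| →
    e < |cnt T t W - prd k T L t W|

/-- the failure of every prediction -/
def AllBad (k T L e g : ℝ) : Prop := ∀ W : Set ℝ, W ⊆ Icc (-L ^ (k / 8)) (L ^ (k / 8)) → e < |cnt T g W - prd k T L g W|

/-- the thick set: pointwise part -/
theorem thick_pt {k : ℝ} (hk : 0 < k) {a c c1 c2 c3 c5 C1 C2 C3 C5 T L e t : ℝ} {J : ℕ} (ha : 0 < a) (hac : 2 * a ≤ c1) (hc1 : 2 * c ≤ c1)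
    (hc2 : c ≤ c2) (hc3 : c ≤ c3) (hc5 : c ≤ c5) (hC1 : 1 ≤ C1) (hC2 : 1 ≤ C2) (hC3 : 1 ≤ C3) (hC5 : 1 ≤ C5)
    (hL : 1 ≤ L) (hT : 3 ≤ T) (hLC5 : C5 ≤ L) (hs : 0 < sp T) (hJ : L ^ a + 1 ≤ J) (hJ2 : (J : ℝ) ≤ 3 * L ^ a)
    {D S : ℝ → ℝ} (h1 : ∀ j : ℤ, |j| ≤ J → ∀ u : ℝ, |u - (t + j * sp T)| ≤ sp T → |S u - D (t + j * sp T)| ≤ C1 * L ^ (-c1))
    (h2 : ∀ j : ℤ, |j| ≤ J → ∀ u : ℝ, |u - (t + j * sp T)| ≤ sp T → |Tk k T L u - (Mk k L - S u)| ≤ C2 * L ^ (-c2))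
    (h3 : ∀ j : ℤ, |j| ≤ J → ∀ u : ℝ, |u - (t + j * sp T)| ≤ sp T → |Ok k T L u - (Mk k L - Ak k L)| ≤ C3 * L ^ (-c3))
    (h4 : ∀ j : ℤ, |j| ≤ J → (zc (Wk k T L 2 (t + j * sp T)) : ℝ) ≤ L ^ (k / 4))
    (h5 : ∀ (T L e t v : ℝ) (W : Set ℝ), 3 ≤ T →
      C5 ≤ L → |Ok k T L t - (Mk k L - Ak k L)| ≤ v → (zc (Wk k T L 1 t) : ℝ) ≤ L ^ (k / 4) →
      W ⊆ Icc (-L ^ (k / 8)) (L ^ (k / 8)) → e + v + C5 * L ^ (-c5) < |Tk k T L t - Mk k L| →
      e < |cnt T t W - prd k T L t W|)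
    (h6 : e + (7 * C1 + C2 + C3 + C5) * L ^ (-c) < |D t|) (u : ℝ) (hu : |u - t| ≤ L ^ a * sp T) : AllBad k T L e u := by
  intro W hW
  have hL0 : 0 < L := by linarith
  -- the nearest shift
  set x := (u - t) / sp T with hx
  have hx1 : |x| ≤ L ^ a := by
    rw [hx, abs_div, abs_of_pos hs, div_le_iff₀ hs]
    exact hu
  set j : ℤ := ⌊x⌋ with hj
  have hj1 : (j : ℝ) ≤ x := Int.floor_le x
  have hj2 : x < j + 1 := Int.lt_floor_add_one x
  have hjJ : |j| ≤ J := by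
    have h := abs_le.1 hx1
    have e1 : |(j : ℝ)| ≤ J := abs_le.2 ⟨by linarith, by linarith⟩
    exact_mod_cast e1
  have hux : u = t + x * sp T := by rw [hx, div_mul_cancel₀ _ hs.ne']; ring
  have huj : |u - (t + j * sp T)| ≤ sp T := by
    have e1 : u - (t + j * sp T) = (x - j) * sp T := by rw [hux]; ring
    rw [e1, abs_mul, abs_of_pos hs, abs_of_nonneg (by linarith)]
    nlinarith
  have g1 := h1 j hjJ u huj
  have g2 := h2 j hjJ u huj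
  have g3 := h3 j hjJ u huj
  have g4 := h4 j hjJ
  have g5 := chain hs h1 j hjJ
  -- powers
  have p1 : 2 * (J : ℝ) * (C1 * L ^ (-c1)) ≤ 6 * C1 * L ^ (-c) := by
    have e1 : L ^ a * L ^ (-c1) ≤ L ^ (-c) := by
      rw [← Real.rpow_add hL0]
      exact Real.rpow_le_rpow_of_exponent_le hL (by linarith)
    calc 2 * (J : ℝ) * (C1 * L ^ (-c1)) ≤ 2 * (3 * L ^ a) * (C1 * L ^ (-c1)) := by gcongr
      _ = 6 * C1 * (L ^ a * L ^ (-c1)) := by ring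
      _ ≤ 6 * C1 * L ^ (-c) := by gcongr
  have p2 : C1 * L ^ (-c1) ≤ C1 * L ^ (-c) := by
    have := Real.rpow_le_rpow_of_exponent_le hL (show -c1 ≤ -c by linarith)
    gcongr
  have p3 : C2 * L ^ (-c2) ≤ C2 * L ^ (-c) := by
    have := Real.rpow_le_rpow_of_exponent_le hL (show -c2 ≤ -c by linarith)
    gcongr
  have p4 : C3 * L ^ (-c3) ≤ C3 * L ^ (-c) := by
    have := Real.rpow_le_rpow_of_exponent_le hL (show -c3 ≤ -c by linarith)
    gcongr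
  have p5 : C5 * L ^ (-c5) ≤ C5 * L ^ (-c) := by
    have := Real.rpow_le_rpow_of_exponent_le hL (show -c5 ≤ -c by linarith)
    gcongr
  refine h5 T L e u (C3 * L ^ (-c3)) W hT hLC5 g3 ?_ hW ?_
  · refine le_trans ?_ g4
    have f1 : Wk k T L 1 u ⊆ Wk k T L 2 (t + j * sp T) := by
      have hl : 1 ≤ L ^ (k / 8) := Real.one_le_rpow hL (by positivity)
      have f2 := abs_le.1 huj
      have f3 : sp T ≤ L ^ (k / 8) * sp T := le_mul_of_one_le_left hs.le hl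
      unfold Wk
      apply Icc_subset_Icc <;> nlinarith [f2.1, f2.2]
    exact_mod_cast Pool.Agent.Helper56.UG.zc_mono f1 (J := Wk k T L 2 (t + j * sp T)) subset_rfl
  · generalize hQ : L ^ (-c) = Q at *
    have q1 : |D t| ≤ |D (t + j * sp T)| + 6 * C1 * Q := by
      have := abs_sub_abs_le_abs_sub (D t) (D (t + j * sp T))
      rw [abs_sub_comm] at g5
      linarith
    have q2 : |D (t + j * sp T)| ≤ |S u| + C1 * Q := by
      have := abs_sub_abs_le_abs_sub (D (t + j * sp T)) (S u)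
      rw [abs_sub_comm] at g1
      linarith
    have q3 : |S u| ≤ |Tk k T L u - Mk k L| + C2 * Q := by
      have e1 : S u = (Tk k T L u - (Mk k L - S u)) - (Tk k T L u - Mk k L) := by ring
      have e2 : |S u| ≤ |Tk k T L u - (Mk k L - S u)| + |Tk k T L u - Mk k L| := by
        conv_lhs => rw [e1]
        exact abs_sub _ _
      linarith
    linarith

/-- the shifts of a set -/
theorem vol_shifts {s m : ℝ} (J : ℕ) (E : Set ℝ) (hE : volume E ≤ ENNReal.ofReal m) :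
    volume (⋃ j ∈ Finset.Icc (-(J : ℤ)) J, (fun t : ℝ => t + (j : ℝ) * s) ⁻¹' E) ≤ ENNReal.ofReal ((2 * J + 1) * m) := by
  refine (measure_biUnion_finset_le _ _).trans ?_
  have h1 : ∀ j ∈ Finset.Icc (-(J : ℤ)) J, volume ((fun t : ℝ => t + (j : ℝ) * s) ⁻¹' E) ≤ ENNReal.ofReal m := by
    intro j _
    rw [measure_preimage_add_right]
    exact hE
  refine (Finset.sum_le_sum h1).trans ?_
  rw [Finset.sum_const, Int.card_Icc, nsmul_eq_mul, ENNReal.ofReal_mul (by positivity)]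
  gcongr
  rw [← ENNReal.ofReal_natCast]
  refine ENNReal.ofReal_le_ofReal ?_
  have h2 : ((J : ℤ) + 1 - -(J : ℤ)).toNat = 2 * J + 1 := by omega
  rw [h2]
  push_cast
  exact le_rfl

/-- **K3**: the ordinates at which every prediction fails, from below -/
theorem final_g_low_of {k : ℝ} (hk : 0 < k) (hk16 : k ≤ 1 / 16) (H1 : SlDp k) (H2 : TotThick k) (H3 : OutThick k)
    (H4 : WinCount k) (H5 : BadOf k) (H6 : PrimeLow k) : ∃ C T₀ : ℝ, 1 ≤ C ∧ ∀ T L e : ℝ, T₀ ≤ T → C ≤ L →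
    L ≤ Real.log T → 0 < e → e ≤ 1 → 1 / C * L ^ (-((1 + 30 * k) * e ^ 2)) * (T * Real.log T) ≤
      (zc {g : ℝ | T ≤ g ∧ g ≤ 2 * T ∧ ∀ W : Set ℝ, W ⊆ Icc (-L ^ (k / 8)) (L ^ (k / 8)) →
        e < |cnt T g W - prd k T L g W|} : ℝ) := by
  obtain ⟨c1, C1, T1, hc1, hC1, H1⟩ := H1
  obtain ⟨c2, C2, T2, hc2, hC2, H2⟩ := H2
  obtain ⟨c3, C3, T3, hc3, hC3, H3⟩ := H3
  obtain ⟨C4, T4, hC4, H4⟩ := H4
  obtain ⟨c5, C5, hc5, hC5, H5⟩ := H5
  obtain ⟨C6, T6, hC6, H6⟩ := H6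
  obtain ⟨c, hc, hcc1, hcc2, hcc3, hcc5⟩ : ∃ c : ℝ, 0 < c ∧ 2 * c ≤ c1 ∧ c ≤ c2 ∧ c ≤ c3 ∧ c ≤ c5 := by
    refine ⟨min (c1 / 2) (min c2 (min c3 c5)), by positivity, ?_, ?_, ?_, ?_⟩
    · linarith [min_le_left (c1 / 2) (min c2 (min c3 c5))]
    · exact (min_le_right _ _).trans (min_le_left _ _)
    · exact (min_le_right _ _).trans ((min_le_right _ _).trans (min_le_left _ _))
    · exact (min_le_right _ _).trans ((min_le_right _ _).trans (min_le_right _ _))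
  obtain ⟨a, ha, ha2, hac⟩ : ∃ a : ℝ, 0 < a ∧ a ≤ 1 / 2 ∧ 2 * a ≤ c1 :=
    ⟨min (1 / 2) (c1 / 2), by positivity, min_le_left _ _, by linarith [min_le_right (1 / 2) (c1 / 2)]⟩
  obtain ⟨Cz, Tz, hCz, hZ⟩ := thick_zeros ha (by linarith : a < 1) (show (0:ℝ) ≤ 3 by norm_num)
  set K := 7 * C1 + C2 + C3 + C5 with hK
  have hK1 : 1 ≤ K := by linarith
  set κ := Real.exp (-(9 * K / c)) / (2 * C6) with hκ
  have hκ0 : 0 < κ := by positivity
  set Sc4 := C1 + C2 + C3 + C4 with hSc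
  have hSc0 : 0 < Sc4 := by linarith
  refine ⟨(C1 + C2 + C3 + C4 + C5 + C6 + Cz) + (K ^ (1 / c) + ((7 * Sc4 / κ) ^ 2 + ((1 / κ) ^ 8 + 20 / κ))),
    max (max (max T1 T2) (max T3 T4)) (max (max T6 Tz) 40), ?_, ?_⟩
  · have e1 : 0 < K ^ (1 / c) := by positivity
    have e2 : 0 < (7 * Sc4 / κ) ^ 2 := by positivity
    have e3 : 0 < (1 / κ) ^ 8 := by positivity
    have e4 : 0 < 20 / κ := by positivity
    linarith
  intro T L e hT hCL hLT he he1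
  simp only [max_le_iff] at hT
  obtain ⟨⟨⟨hT1, hT2⟩, hT3, hT4⟩, ⟨hT6, hTz⟩, hT40⟩ := hT
  obtain ⟨hL1', hL2', hL3', hL4', hL5', hL6', hLz, hLK, hLS, hLκ, hLC⟩ :
      C1 ≤ L ∧ C2 ≤ L ∧ C3 ≤ L ∧ C4 ≤ L ∧ C5 ≤ L ∧ C6 ≤ L ∧ Cz ≤ L ∧ K ^ (1 / c) ≤ L ∧ (7 * Sc4 / κ) ^ 2 ≤ L ∧
      (1 / κ) ^ 8 ≤ L ∧ 20 / κ ≤ L := by
    have e1 : 0 < K ^ (1 / c) := by positivity
    have e2 : 0 < (7 * Sc4 / κ) ^ 2 := by positivity
    have e3 : 0 < (1 / κ) ^ 8 := by positivity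
    have e4 : 0 < 20 / κ := by positivity
    refine ⟨?_, ?_, ?_, ?_, ?_, ?_, ?_, ?_, ?_, ?_, ?_⟩ <;> linarith
  have hL1 : 1 ≤ L := hC1.trans hL1'
  have hL0 : 0 < L := by linarith
  have hT0 : 0 < T := by linarith
  have hlT : 1 ≤ Real.log T := hL1.trans hLT
  have hs : 0 < sp T := by
    unfold sp
    have := Real.pi_pos
    positivity
  -- the number of shifts
  obtain ⟨J, hJ1, hJ2⟩ : ∃ J : ℕ, L ^ a + 1 ≤ J ∧ (J : ℝ) ≤ 3 * L ^ a := by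
    refine ⟨⌈L ^ a⌉₊ + 1, ?_, ?_⟩
    · push_cast
      linarith [Nat.le_ceil (L ^ a)]
    · have h1 : 1 ≤ L ^ a := Real.one_le_rpow hL1 ha.le
      have h2 := Nat.ceil_lt_add_one (show 0 ≤ L ^ a by positivity)
      push_cast
      linarith
  have hLa : L ^ a ≤ L ^ (1 / 2 : ℝ) := Real.rpow_le_rpow_of_exponent_le hL1 ha2
  have hLh1 : 1 ≤ L ^ (1 / 2 : ℝ) := Real.one_le_rpow hL1 (by norm_num)
  have hJ3 : (J : ℝ) ≤ 3 * L ^ (1 / 2 : ℝ) := by linarith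
  have hJs : (J : ℝ) * sp T ≤ 20 := by
    have h1 : L ^ (1 / 2 : ℝ) ≤ L := by
      calc L ^ (1 / 2 : ℝ) ≤ L ^ (1:ℝ) := Real.rpow_le_rpow_of_exponent_le hL1 (by norm_num)
        _ = L := Real.rpow_one L
    have h2 : (J : ℝ) ≤ 3 * Real.log T := by linarith
    have h3 : (J : ℝ) * sp T ≤ 3 * Real.log T * sp T := by gcongr
    have h4 : 3 * Real.log T * sp T = 3 * (2 * Real.pi) := by
      unfold sp
      field_simp
    have := Real.pi_lt_d2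
    linarith
  -- the sets
  obtain ⟨E1, hE1, G1⟩ := H1 T L hT1 hL1' hLT
  obtain ⟨E2, hE2, G2⟩ := H2 T L hT2 hL2' hLT
  obtain ⟨E3, hE3, G3⟩ := H3 T L hT3 hL3' hLT
  have hE4 := H4 T L hT4 hL4' hLT
  set E4 : Set ℝ := {t : ℝ | t ∈ Icc (T / 2) (3 * T) ∧ L ^ (k / 4) < (zc (Wk k T L 2 t) : ℝ)} with hE4'
  set Es : Set ℝ := ((E1 ∪ E2) ∪ E3) ∪ E4 with hEs
  have hL4 : 0 < L ^ (-4 : ℝ) := by positivity
  have hEv : volume Es ≤ ENNReal.ofReal (Sc4 * L ^ (-4 : ℝ) * T) := by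
    refine (measure_union_le _ _).trans ((add_le_add ((measure_union_le _ _).trans (add_le_add ((measure_union_le _ _).trans
      (add_le_add hE1 hE2)) hE3)) hE4).trans ?_)
    rw [← ENNReal.ofReal_add (by positivity) (by positivity), ← ENNReal.ofReal_add (by positivity) (by positivity),
      ← ENNReal.ofReal_add (by positivity) (by positivity)]
    refine ENNReal.ofReal_le_ofReal (le_of_eq ?_)
    rw [hSc]
    ring
  set N : Set ℝ := ⋃ j ∈ Finset.Icc (-(J : ℤ)) J, (fun t : ℝ => t + (j : ℝ) * sp T) ⁻¹' Es with hN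
  have hNv := vol_shifts (s := sp T) J Es hEv
  set δ := K * L ^ (-c) with hδ
  have hδ1 : δ ≤ 1 := by
    have h1 : K ≤ L ^ c := by
      have := Real.rpow_le_rpow (by positivity) hLK hc.le
      rwa [← Real.rpow_mul (by linarith), one_div, inv_mul_cancel₀ hc.ne', Real.rpow_one] at this
    calc δ ≤ L ^ c * L ^ (-c) := by rw [hδ]; gcongr
      _ = 1 := by rw [← Real.rpow_add hL0]; simp
  have hδ0 : 0 < δ := by positivity
  set E0 : Set ℝ := {t : ℝ | T ≤ t ∧ t ≤ 2 * T ∧ e + δ < |(DP (QX (Xk k T L)) (rk k T L) t).re|} with hE0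
  have hE0v := H6 T L (e + δ) hT6 hL6' hLT (by positivity) (by linarith)
  rw [← hE0] at hE0v
  have hA3 : 1 + 30 * k ≤ 23 / 8 := by linarith
  set P := L ^ (-((1 + 30 * k) * e ^ 2)) with hP
  have hP0 : 0 < P := by positivity
  have hPL : L ^ (-(23 / 8) : ℝ) ≤ P := by
    refine Real.rpow_le_rpow_of_exponent_le hL1 ?_
    have h1 : e ^ 2 ≤ 1 := pow_le_one₀ he.le he1
    have h2 : (1 + 30 * k) * e ^ 2 ≤ 23 / 8 * 1 := by gcongr
    linarith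
  have hpl := pow_low (A := 1 + 30 * k) (e := e) (δ := δ) (K := K) (c := c) (L := L) (by positivity) (by linarith) he1
    (by linarith) hc hL1 hδ hδ1
  rw [← hP] at hpl
  have h2v : 2 * (κ * P * T) ≤ 1 / C6 * L ^ (-((1 + 30 * k) * (e + δ) ^ 2)) * T := by
    have e1 : 2 * (κ * P * T) = 1 / C6 * (Real.exp (-(9 * K / c)) * P) * T := by
      rw [hκ]
      field_simp
    rw [e1]
    gcongr
  have hNv2 : volume N ≤ ENNReal.ofReal (κ * P * T) := by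
    refine hNv.trans (ENNReal.ofReal_le_ofReal ?_)
    have e1 : 2 * (J : ℝ) + 1 ≤ 7 * L ^ (1 / 2 : ℝ) := by linarith
    have e2 : 7 * Sc4 ≤ κ * L ^ (1 / 2 : ℝ) := by
      have h1 := Real.rpow_le_rpow (by positivity) hLS (show (0:ℝ) ≤ 1 / 2 by norm_num)
      rw [← Real.rpow_natCast, ← Real.rpow_mul (by positivity)] at h1
      norm_num at h1
      rw [div_le_iff₀ hκ0] at h1
      norm_num
      linarith
    have e3 : L ^ (1 / 2 : ℝ) * L ^ (1 / 2 : ℝ) * L ^ (-4 : ℝ) ≤ L ^ (-(23 / 8) : ℝ) := by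
      rw [← Real.rpow_add hL0, ← Real.rpow_add hL0]
      exact Real.rpow_le_rpow_of_exponent_le hL1 (by norm_num)
    calc (2 * (J : ℝ) + 1) * (Sc4 * L ^ (-4 : ℝ) * T) ≤ 7 * L ^ (1 / 2 : ℝ) * (Sc4 * L ^ (-4 : ℝ) * T) := by gcongr
      _ = 7 * Sc4 * (L ^ (1 / 2 : ℝ) * L ^ (-4 : ℝ) * T) := by ring
      _ ≤ κ * L ^ (1 / 2 : ℝ) * (L ^ (1 / 2 : ℝ) * L ^ (-4 : ℝ) * T) := by gcongr
      _ = κ * (L ^ (1 / 2 : ℝ) * L ^ (1 / 2 : ℝ) * L ^ (-4 : ℝ)) * T := by ring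
      _ ≤ κ * L ^ (-(23 / 8) : ℝ) * T := by gcongr
      _ ≤ κ * P * T := by gcongr
  have hvol : ENNReal.ofReal (κ * P * T) ≤ volume (E0 \ N) := by
    have h1 : volume E0 ≤ volume (E0 \ N) + volume N := by
      refine (measure_mono (fun t ht => ?_)).trans (measure_union_le (E0 \ N) N)
      by_cases h : t ∈ N
      · exact Or.inr h
      · exact Or.inl ⟨ht, h⟩
    have h2 : ENNReal.ofReal (κ * P * T) + ENNReal.ofReal (κ * P * T) ≤ volume (E0 \ N) + ENNReal.ofReal (κ * P * T) := by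
      rw [← ENNReal.ofReal_add (by positivity) (by positivity), ← two_mul]
      exact (ENNReal.ofReal_le_ofReal h2v).trans (hE0v.trans (h1.trans (add_le_add le_rfl hNv2)))
    exact (ENNReal.add_le_add_iff_right ENNReal.ofReal_ne_top).1 h2
  have hv3 : L ^ (-3 : ℝ) ≤ κ * P := by
    have h1 : 1 ≤ κ * L ^ (1 / 8 : ℝ) := by
      have h1 := Real.rpow_le_rpow (by positivity) hLκ (show (0:ℝ) ≤ 1 / 8 by norm_num)
      rw [← Real.rpow_natCast, ← Real.rpow_mul (by positivity)] at h1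
      norm_num at h1
      have h2 : κ * κ⁻¹ ≤ κ * L ^ (1 / 8 : ℝ) := by
        norm_num
        exact mul_le_mul_of_nonneg_left h1 hκ0.le
      rwa [mul_inv_cancel₀ hκ0.ne'] at h2
    calc L ^ (-3 : ℝ) = 1 * L ^ (-3 : ℝ) := (one_mul _).symm
      _ ≤ κ * L ^ (1 / 8 : ℝ) * L ^ (-3 : ℝ) := by gcongr
      _ = κ * L ^ (-(23 / 8) : ℝ) := by
          rw [mul_assoc, ← Real.rpow_add hL0]
          norm_num
      _ ≤ κ * P := by gcongr
  have hfin := hZ T L hTz hLz hLT (E0 \ N) {g | AllBad k T L e g} (fun t ht => ⟨ht.1.1, ht.1.2.1⟩) ?_ (κ * P) hv3 hvol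
  · refine le_trans ?_ hfin
    have h1 : 1 / ((C1 + C2 + C3 + C4 + C5 + C6 + Cz) + (K ^ (1 / c) + ((7 * Sc4 / κ) ^ 2 + ((1 / κ) ^ 8 + 20 / κ)))) ≤ κ / 20 := by
      have e1 : 0 < K ^ (1 / c) := by positivity
      have e2 : 0 < (7 * Sc4 / κ) ^ 2 := by positivity
      have e3 : 0 < (1 / κ) ^ 8 := by positivity
      have e4 : 0 < 20 / κ := by positivity
      calc _ ≤ 1 / (20 / κ) := one_div_le_one_div_of_le e4 (by linarith)
        _ = κ / 20 := by rw [one_div_div]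
    calc _ ≤ κ / 20 * P * (T * Real.log T) := by gcongr
      _ = κ * P / 20 * (T * Real.log T) := by ring
  · intro t ht u hu _ _
    have hj : ∀ j : ℤ, |j| ≤ J → t + j * sp T ∈ Icc (T / 2) (3 * T) ∧ t + j * sp T ∉ Es := by
      intro j hj
      constructor
      · have h1 : |(j : ℝ)| ≤ J := by exact_mod_cast hj
        have h2 : |(j : ℝ) * sp T| ≤ 20 := by
          rw [abs_mul, abs_of_pos hs]
          exact (mul_le_mul_of_nonneg_right h1 hs.le).trans hJs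
        have h3 := abs_le.1 h2
        exact ⟨by linarith [ht.1.1, h3.1], by linarith [ht.1.2.1, h3.2]⟩
      · intro h1
        refine ht.2 ?_
        rw [hN]
        simp only [mem_iUnion, mem_preimage]
        exact ⟨j, Finset.mem_Icc.2 (abs_le.1 hj), h1⟩
    refine thick_pt hk ha hac hcc1 hcc2 hcc3 hcc5 hC1 hC2 hC3 hC5 hL1 (by linarith) hL5' hs hJ1 hJ2
      (D := fun t => (DP (QX (Xk k T L)) (rk k T L) t).re) (S := Sk k T L) ?_ ?_ ?_ ?_ H5 ht.1.2.2 u hu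
    · intro j hj' u' hu'
      obtain ⟨a1, a2⟩ := hj j hj'
      exact G1 _ a1 (fun h => a2 (Or.inl (Or.inl (Or.inl h)))) u' hu'
    · intro j hj' u' hu'
      obtain ⟨a1, a2⟩ := hj j hj'
      by_contra h
      exact a2 (Or.inl (Or.inl (Or.inr (G2 _ a1 u' hu' (not_le.1 h)))))
    · intro j hj' u' hu'
      obtain ⟨a1, a2⟩ := hj j hj'
      by_contra h
      exact a2 (Or.inl (Or.inr (G3 _ a1 u' hu' (not_le.1 h))))
    · intro j hj'
      obtain ⟨a1, a2⟩ := hj j hj'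
      by_contra h
      exact a2 (Or.inr ⟨a1, not_le.1 h⟩)

end Pool.Agent.Helper44.NS
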